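import Mathlib
import Pool.Agent.H204R3.GP.Defs
import Pool.Agent.H204R3.GP.HomDefs
import Pool.Agent.H204R3.GP.Hom
import Pool.Agent.H204R3.GP.Signature

/-!
# The Tate conjecture for the pure motives generated by an abelian variety with one good Frobenius

Let `A` be an abelian variety over a number field `K`, of any dimension and with arbitrary
endomorphisms.  Suppose that `A` has good reduction at ONE place `v` (with residue field of `p ^ a`
elements) such that the characteristic polynomial of the Frobenius element is the product of the
minimal polynomials of Weil numbers `π i`, such that for a fixed odd prime `r`: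

* `F i = ℚ(π i)` is a CM field of degree `2 r ^ (k i)` which contains an imaginary quadratic field
  `ℚ(δ i)`, `(δ i) ^ 2 = - d i`, and these imaginary quadratic fields are pairwise distinct;
* the signature of `π i` is prime to `r`: the sum of the (normalised) slopes of the conjugates of
  `π i` over one of the two `p`-adic embeddings of `ℚ(δ i)` is not divisible by `r`.  (If `A` is
  ordinary at `v` this says that the number of the embeddings `τ` of `F i` into the algebraic
  closure of `ℚ_p` with a fixed value at `δ i`, such that `τ(π i)` is a unit, is prime to `r`; there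
  is no condition on the Galois groups of the fields `F i`.)

Then, for all primes `ℓ` not divisible by `v`, all homomorphisms between the `ℓ`-adic realizations
of the pure motives `h_1(A) ^ {⊗ s} (c)` and `h_1(A) ^ {⊗ t} (d)` which commute with a subgroup of
finite index of the Galois group, are linear combinations of products of Tate classes of degree two;
by the theorem of Faltings these are realizations of morphisms of motives.  Therefore the Tate
conjecture, that is surjectivity of `Hom(M, M') ⊗ ℚ_ℓ → Hom_{G_K}(M_ℓ, M'_ℓ)`, holds for all pure
motives `M`, `M'` in the tensor category generated by `h_1(A)` (all direct summands of the motives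
of the powers of `A`, and their Tate twists).

In the Lean statement `V` is the rational Tate module, the `ℓ`-adic realization of `h_1(A)`, with the
action `ρ` of the Galois group, `ω` is the Weil pairing of a polarization, `χ` is the cyclotomic
character and `γ` the Frobenius element at `v`.

The proof.  Multiplicative relations between the conjugates of the Weil numbers give, by the slopes,
a relation between all translates of an integral vector on the set of the embeddings.  Reduce it
modulo `r` and take a nonzero vector which is fixed by a Sylow `r`-subgroup of the Galois group; this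
subgroup is transitive on the embeddings over a fixed embedding of `ℚ(δ i)`, so that one gets a
linear relation modulo `r` between distinct quadratic characters.  So there are no relations besides
`π * conj π = q`, and the Lie algebra of the endomorphisms of `V` that kill all Tate classes contains
a Cartan subalgebra of the symplectic Lie algebra; over a finite extension of `ℚ_ℓ` it is a product
of symplectic and general linear Lie algebras, and the first fundamental theorems for these give the
result.
-/

namespace Pool.Agent.Results.MP_3703a7_ag.OneFrobeniusSignature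

open NumberField Module Pool.Agent.H204R3.GP IntermediateField

/-- If the characteristic polynomial of one element `γ` of the Galois group is the product of the
minimal polynomials of Weil numbers `π i` with signature prime to `r`, in CM fields of degree
`2 r ^ (k i)` containing pairwise different imaginary quadratic fields, all homomorphisms
`V ^ {⊗ s} (c) → V ^ {⊗ t} (d)` are generated in degree two. -/
theorem result (ℓ p : ℕ) [Fact ℓ.Prime] [Fact p.Prime] (a : ℕ) (ha : 0 < a)
    {ι : Type} [Fintype ι] (F : ι → Type) [∀ i, Field (F i)] [∀ i, NumberField (F i)]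
    [∀ i, IsCMField (F i)] (π : ∀ i, F i) (hgen : ∀ i, ℚ⟮π i⟯ = ⊤)
    (hweil : ∀ i, π i * IsCMField.complexConj (F i) (π i) = (p : F i) ^ a)
    (r : ℕ) [Fact r.Prime] (hr : r ≠ 2)
    (k : ι → ℕ) (hdeg : ∀ i, finrank ℚ (F i) = 2 * r ^ k i)
    (δ : ∀ i, F i) (d : ι → ℕ) (hd : ∀ i, 0 < d i) (hδ : ∀ i, δ i ^ 2 = -(d i : F i))
    (hdist : ∀ i i', i ≠ i' → ¬ IsSquare (d i * d i'))
    (hsig : ∀ i, SignaturePrimeTo r p a (π i) (δ i))
    {V : Type} [AddCommGroup V] [Module ℚ_[ℓ] V] [FiniteDimensional ℚ_[ℓ] V]
    {Γ : Type} [Group Γ] (ρ : Representation ℚ_[ℓ] Γ V) (χ : Γ →* ℚ_[ℓ])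
    (ω : V →ₗ[ℚ_[ℓ]] V →ₗ[ℚ_[ℓ]] ℚ_[ℓ]) (halt : ∀ v, ω v v = 0)
    (hnondeg : ∀ u, (∀ v, ω v u = 0) → u = 0)
    (hω : ∀ s u v, ω (ρ s u) (ρ s v) = χ s * ω u v)
    (hss : FiniteIndexSemisimple ρ)
    (γ : Γ) (hχ : χ γ = (p : ℚ_[ℓ]) ^ a)
    (hγ : (ρ γ).charpoly = ∏ i, (minpoly ℚ (π i)).map (algebraMap ℚ ℚ_[ℓ])) :
    HomsGeneratedInDegreeTwo ρ χ ω := by
  have hss' : ∀ Δ : Subgroup Γ, Δ.FiniteIndex → SemiUnder (ρ '' (Δ : Set Γ)) := by
    intro Δ hΔ U hU
    obtain ⟨U', h1, h2⟩ := hss Δ hΔ U (fun s hs u hu => hU _ ⟨s, hs, rfl⟩ u hu)
    refine ⟨U', ?_, h2⟩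
    rintro _ ⟨s, hs, rfl⟩ u hu
    exact h1 s hs u hu
  obtain ⟨L, hL1, hL2, j, h⟩ := Pool.Agent.H204R3.CM.exists_galois F
  let jp : L →ₐ[ℚ] PadicAlgCl p := IsAlgClosed.lift
  have hneat := neat_of_signature j h (jp : L →+* PadicAlgCl p) hweil r hr k hdeg δ d hd hδ hdist
    hsig
  exact homs_generated ρ χ ω halt hnondeg hω fun m φ hφ => tate_of_neat ha hgen hweil
    j h hneat ρ χ ω halt hnondeg hω hss' γ hχ hγ φ hφ

end Pool.Agent.Results.MP_3703a7_ag.OneFrobeniusSignature
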